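import Pool.Agent.H.MP_f59edb_pr.A

/-! The (x,y) edge-removal process stops at an (x,y) task-dependency graph with probability tending to one. -/

open Finset Filter Topology

namespace Pool.Agent.Results.MP_f59edb_pr.Lim

/-- number of vertices of in-degree zero -/
def ini {n : ℕ} (G : Finset (Fin n × Fin n)) : ℕ := #{v : Fin n | ∀ e ∈ G, e.2 ≠ v}

/-- number of vertices of out-degree zero -/
def ter {n : ℕ} (G : Finset (Fin n × Fin n)) : ℕ := #{v : Fin n | ∀ e ∈ G, e.1 ≠ v}

/-- currently removable edges -/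
def rem {n : ℕ} (x y : ℕ) (G : Finset (Fin n × Fin n)) : Finset (Fin n × Fin n) :=
  {e ∈ G | ini (G.erase e) ≤ x ∧ ter (G.erase e) ≤ y}

/-- probability that the process started at `G` is at an (x,y) graph after `k` steps (it stays put once stopped) -/
noncomputable def pr {n : ℕ} (x y : ℕ) : ℕ → Finset (Fin n × Fin n) → ℝ
  | 0, G => if ini G = x ∧ ter G = y then 1 else 0
  | k + 1, G => if rem x y G = ∅ then (if ini G = x ∧ ter G = y then 1 else 0) else
      (∑ e ∈ rem x y G, pr x y k (G.erase e)) / #(rem x y G)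

lemma br {n : ℕ} (x y k : ℕ) : pr (n := n) x y k = Pool.Agent.H.MP_f59edb_pr.pr x y k := by
  induction k with
  | zero => rfl
  | succ k ih => funext G; rw [pr, ih]; rfl

theorem result (x y : ℕ) (hx : 1 ≤ x) (hy : 1 ≤ y) :
    Tendsto (fun n : ℕ => pr x y (n ^ 2) ({e | e.1 < e.2} : Finset (Fin n × Fin n))) atTop (𝓝 1) := by
  simpa only [br] using Pool.Agent.H.MP_f59edb_pr.main x y hx hy

end Pool.Agent.Results.MP_f59edb_pr.Lim
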